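import Pool.Agent.helper82.CH.SpecE2

/-!
# che:RSB: the Taylor coefficients of the exponential of a Dirichlet series with nonnegative coefficients
-/

set_option autoImplicit false

open Complex

namespace Pool.Agent.CHE

open LSeries Topology

theorem RSB_log (w : ℕ → ℝ) (m k : ℕ) : (logMul^[m] (fun j => (w j : ℂ))) k = ((Real.log k ^ m * w k : ℝ) : ℂ) := by
  induction m with
  | zero => simp
  | succ m ih =>
    rw [Function.iterate_succ_apply']
    show Complex.log (k : ℂ) * (logMul^[m] (fun j => (w j : ℂ))) k = _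
    rw [ih]
    have h1 : Complex.log (k : ℂ) = ((Real.log k : ℝ) : ℂ) := by
      rw [Complex.ofReal_log (Nat.cast_nonneg k), Complex.ofReal_natCast]
    rw [h1, ← Complex.ofReal_mul]
    congr 1
    ring

/-- `L(v, 2)` is a nonnegative real number for nonnegative coefficients -/
theorem RSB_real (v : ℕ → ℝ) (hv : ∀ k, 0 ≤ v k) : ∃ c : ℝ, 0 ≤ c ∧ LSeries (fun j => (v j : ℂ)) 2 = (c : ℂ) := by
  refine ⟨∑' n : ℕ, (if n = 0 then 0 else v n / (n : ℝ) ^ 2), tsum_nonneg fun n => ?_, ?_⟩
  · split_ifs
    · exact le_rfl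
    · exact div_nonneg (hv n) (by positivity)
  · rw [LSeries, Complex.ofReal_tsum]
    refine tsum_congr fun n => ?_
    rw [term_def]
    split_ifs with h
    · simp
    · push_cast
      congr 1
      exact_mod_cast Complex.cpow_natCast (n : ℂ) 2

theorem RSB : RSB_stmt := by
  intro w hw hs
  set g : ℂ → ℂ := LSeries (fun j => (w j : ℂ)) with hg
  set f : ℂ → ℂ := fun s => Complex.exp (g s) with hf
  have habs : abscissaOfAbsConv (fun j => (w j : ℂ)) ≤ 1 := by
    refine abscissaOfAbsConv_le_of_forall_lt_LSeriesSummable' fun y hy => ?_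
    refine hs y ?_
    rw [Complex.ofReal_re]
    exact_mod_cast hy
  have hlt : ∀ s : ℂ, 1 < s.re → abscissaOfAbsConv (fun j => (w j : ℂ)) < s.re := fun s h => habs.trans_lt (by exact_mod_cast h)
  have h2 : (1 : ℝ) < (2 : ℂ).re := by norm_num
  have han : ∀ s : ℂ, 1 < s.re → AnalyticAt ℂ g s := fun s h => LSeries_analyticOnNhd _ s (hlt s h)
  have hfan : ∀ s : ℂ, 1 < s.re → AnalyticAt ℂ f s := fun s h => (han s h).cexp
  -- the derivatives of `g`
  have hgd : ∀ i : ℕ, ∃ c : ℝ, 0 ≤ c ∧ iteratedDeriv i g 2 = (-1) ^ i * (c : ℂ) := by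
    intro i
    obtain ⟨c, hc, hc'⟩ := RSB_real (fun k => Real.log k ^ i * w k) fun k => mul_nonneg (pow_nonneg (Real.log_natCast_nonneg k) i) (hw k)
    refine ⟨c, hc, ?_⟩
    rw [hg, LSeries_iteratedDeriv i (hlt 2 h2), ← hc']
    have h3 : logMul^[i] (fun j => (w j : ℂ)) = fun k : ℕ => ((Real.log k ^ i * w k : ℝ) : ℂ) := funext fun k => RSB_log w i k
    rw [h3]
  have hev : deriv f =ᶠ[𝓝 (2 : ℂ)] fun s => deriv g s * f s := by
    have hopen : {s : ℂ | 1 < s.re} ∈ 𝓝 (2 : ℂ) := (isOpen_lt continuous_const Complex.continuous_re).mem_nhds h2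
    filter_upwards [hopen] with s h3
    have h4 := (han s h3).differentiableAt.hasDerivAt.cexp
    rw [h4.deriv, mul_comm]
  -- the derivatives of `f`
  have hfd : ∀ k : ℕ, ∃ e : ℝ, 0 ≤ e ∧ iteratedDeriv k f 2 = (-1) ^ k * (e : ℂ) := by
    intro k
    induction k using Nat.strong_induction_on with
    | _ k ih =>
      rcases Nat.eq_zero_or_pos k with hk | hk
      · subst hk
        obtain ⟨c, -, hc⟩ := hgd 0
        rw [iteratedDeriv_zero, pow_zero, one_mul] at hc
        refine ⟨Real.exp c, (Real.exp_pos c).le, ?_⟩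
        rw [iteratedDeriv_zero, pow_zero, one_mul, hf]
        show Complex.exp (g 2) = _
        rw [hc, Complex.ofReal_exp]
      · obtain ⟨n, rfl⟩ : ∃ n, k = n + 1 := ⟨k - 1, by omega⟩
        have h3 : iteratedDeriv (n + 1) f 2 = ∑ i ∈ Finset.range (n + 1), (n.choose i : ℂ) * iteratedDeriv (i + 1) g 2 * iteratedDeriv (n - i) f 2 := by
          rw [iteratedDeriv_succ', Filter.EventuallyEq.iteratedDeriv_eq n hev,
            iteratedDeriv_fun_mul ((han 2 h2).deriv.contDiffAt) ((hfan 2 h2).contDiffAt)]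
          refine Finset.sum_congr rfl fun i _ => ?_
          rw [iteratedDeriv_succ']
        have h4 : ∀ i : ℕ, ∃ t : ℝ, 0 ≤ t ∧ (i ∈ Finset.range (n + 1) → (n.choose i : ℂ) * iteratedDeriv (i + 1) g 2 * iteratedDeriv (n - i) f 2 = (-1) ^ (n + 1) * (t : ℂ)) := by
          intro i
          by_cases hi : i ∈ Finset.range (n + 1)
          · obtain ⟨c, hc, hc'⟩ := hgd (i + 1)
            obtain ⟨e, he, he'⟩ := ih (n - i) (by omega)
            refine ⟨n.choose i * c * e, by positivity, fun _ => ?_⟩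
            have h5 : n + 1 = (i + 1) + (n - i) := by
              have := Finset.mem_range.1 hi
              omega
            have h6 : ((-1 : ℂ)) ^ (n + 1) = (-1) ^ (i + 1) * (-1) ^ (n - i) := by
              rw [← pow_add]
              exact congrArg _ h5
            rw [hc', he', h6]
            push_cast
            ring
          · exact ⟨0, le_rfl, fun h => absurd h hi⟩
        choose t ht ht' using h4
        refine ⟨∑ i ∈ Finset.range (n + 1), t i, Finset.sum_nonneg fun i _ => ht i, ?_⟩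
        rw [h3, Finset.sum_congr rfl fun i hi => ht' i hi, Complex.ofReal_sum, Finset.mul_sum]
  choose e he he' using hfd
  refine ⟨fun k => e k / k.factorial, fun k => div_nonneg (he k) (by positivity), ?_, ?_⟩
  · obtain ⟨c, hc, hc'⟩ := hgd 0
    rw [iteratedDeriv_zero, pow_zero, one_mul] at hc'
    have h3 := he' 0
    rw [iteratedDeriv_zero, pow_zero, one_mul, hf] at h3
    have h4 : Complex.exp (g 2) = (e 0 : ℂ) := h3
    rw [hc', ← Complex.ofReal_exp] at h4
    have h5 : Real.exp c = e 0 := by exact_mod_cast h4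
    show 1 ≤ e 0 / (Nat.factorial 0 : ℝ)
    rw [Nat.factorial_zero, Nat.cast_one, div_one, ← h5]
    exact Real.one_le_exp hc
  · intro k
    rw [he' k]
    have h3 : (k.factorial : ℂ) ≠ 0 := by exact_mod_cast k.factorial_ne_zero
    push_cast
    field_simp

end Pool.Agent.CHE
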